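import Mathlib

/-!
# Weights of paths in edge distributions

The total weight of the paths with `k` edges which start at a fixed vertex, the bound by the
inequality of arithmetic and geometric means, and the odd-path functional.
-/

set_option autoImplicit false

open Finset

namespace Pool.Agent.BPM

/-! ## Arithmetic and geometric means -/

theorem amgm_aux (a b : ℝ) (ha : 0 ≤ a) (hb : 0 ≤ b) (k : ℕ) :
    (k + 1) * a * b ^ k ≤ a ^ (k + 1) + k * b ^ (k + 1) := by
  induction k with
  | zero => simp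
  | succ k ih =>
    have h1 := mul_le_mul_of_nonneg_left ih ha
    have h2 : 0 ≤ ((k : ℝ) + 1) * b ^ k * (a - b) ^ 2 := by positivity
    push_cast
    have e1 : a ^ (k + 1 + 1) = a * a ^ (k + 1) := by ring
    have e2 : b ^ (k + 1 + 1) = b * b * b ^ k := by ring
    have e3 : b ^ (k + 1) = b * b ^ k := by ring
    rw [e3] at h1
    rw [e1, e2, e3]
    nlinarith [h1, h2]

theorem amgm (d E : ℝ) (hd : 0 ≤ d) (hE : 0 ≤ E) (k : ℕ) :
    d * (E / k) ^ k ≤ ((d + E) / (k + 1)) ^ (k + 1) := by
  rcases Nat.eq_zero_or_pos k with rfl | hk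
  · simp
    linarith
  · have hk' : (0 : ℝ) < k := by exact_mod_cast hk
    have h := amgm_aux ((d + E) / (k + 1)) (E / k) (by positivity) (by positivity) k
    have e1 : ((k : ℝ) + 1) * ((d + E) / (k + 1)) = d + E := by field_simp
    have e2 : (k : ℝ) * (E / k) ^ (k + 1) = E * (E / k) ^ k := by
      rw [pow_succ]
      field_simp
    rw [e1, e2, add_mul] at h
    linarith

theorem amgm2 (D : ℝ) (h0 : 0 ≤ D) (h1 : D ≤ 1) (k : ℕ) :
    D ^ 2 * ((1 - D) / k) ^ k ≤ 4 / ((k : ℝ) + 2) ^ (k + 2) := by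
  have h2 := amgm (D / 2) (1 - D) (by linarith) (by linarith) k
  have h3 := amgm (D / 2) (D / 2 + (1 - D)) (by linarith) (by linarith) (k + 1)
  have h4 : D / 2 * (D / 2 * ((1 - D) / k) ^ k) ≤
      D / 2 * ((D / 2 + (1 - D)) / (k + 1)) ^ (k + 1) :=
    mul_le_mul_of_nonneg_left h2 (by linarith)
  push_cast at h3
  have e1 : D / 2 + (D / 2 + (1 - D)) = 1 := by ring
  have e2 : (k : ℝ) + 1 + 1 = k + 2 := by ring
  rw [e1, e2, show k + 1 + 1 = k + 2 from rfl, one_div_pow] at h3
  have h5 : D / 2 * (D / 2 * ((1 - D) / k) ^ k) ≤ 1 / ((k : ℝ) + 2) ^ (k + 2) := h4.trans h3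
  have e3 : (4 : ℝ) / ((k : ℝ) + 2) ^ (k + 2) = 4 * (1 / ((k : ℝ) + 2) ^ (k + 2)) := by ring
  rw [e3]
  linarith

/-! ## Paths which start at a fixed vertex -/

section

variable {V : Type*} [Fintype V] [DecidableEq V]

/-- total weight of the paths with `k` edges from `u` whose other vertices lie in `A` -/
noncomputable def S (w : V → V → ℝ) : ℕ → Finset V → V → ℝ
  | 0, _, _ => 1
  | k + 1, A, u => ∑ y ∈ A, w u y * S w k (A.erase y) y

/-- total weight of the edges inside `A` -/
noncomputable def mass (w : V → V → ℝ) (A : Finset V) : ℝ := (∑ x ∈ A, ∑ y ∈ A, w x y) / 2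

variable {w : V → V → ℝ}

theorem mass_nonneg (h0 : ∀ i j, 0 ≤ w i j) (A : Finset V) : 0 ≤ mass w A :=
  div_nonneg (sum_nonneg fun _ _ => sum_nonneg fun _ _ => h0 _ _) (by norm_num)

theorem mass_erase (hs : ∀ i j, w i j = w j i) (hd : ∀ i, w i i = 0) {A : Finset V} {y : V}
    (hy : y ∈ A) : mass w A = ∑ z ∈ A.erase y, w y z + mass w (A.erase y) := by
  unfold mass
  have h1 : ∑ x ∈ A, ∑ z ∈ A, w x z = ∑ z ∈ A, w y z + ∑ x ∈ A.erase y, ∑ z ∈ A, w x z :=
    (add_sum_erase A (fun x => ∑ z ∈ A, w x z) hy).symm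
  have h2 : ∑ z ∈ A, w y z = ∑ z ∈ A.erase y, w y z := by
    rw [← add_sum_erase A (fun z => w y z) hy, hd, zero_add]
  have h3 : ∑ x ∈ A.erase y, ∑ z ∈ A, w x z =
      ∑ x ∈ A.erase y, w y x + ∑ x ∈ A.erase y, ∑ z ∈ A.erase y, w x z := by
    rw [← sum_add_distrib]
    refine sum_congr rfl fun x _ => ?_
    rw [← add_sum_erase A (fun z => w x z) hy, hs x y]
  rw [h1, h2, h3]
  ring

theorem S_nonneg (h0 : ∀ i j, 0 ≤ w i j) (k : ℕ) : ∀ (A : Finset V) (u : V), 0 ≤ S w k A u := by
  induction k with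
  | zero => intro A u; exact zero_le_one
  | succ k ih => intro A u; exact sum_nonneg fun y _ => mul_nonneg (h0 _ _) (ih _ _)

theorem S_le (h0 : ∀ i j, 0 ≤ w i j) (hs : ∀ i j, w i j = w j i) (hd : ∀ i, w i i = 0) (k : ℕ) :
    ∀ (A : Finset V) (u : V),
      S w (k + 1) A u ≤ (∑ y ∈ A, w u y) * (mass w A / k) ^ k := by
  induction k with
  | zero =>
    intro A u
    simp [S]
  | succ k ih =>
    intro A u
    have h1 : S w (k + 1 + 1) A u = ∑ y ∈ A, w u y * S w (k + 1) (A.erase y) y := rfl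
    rw [h1, sum_mul]
    refine sum_le_sum fun y hy => mul_le_mul_of_nonneg_left ?_ (h0 _ _)
    have h2 := amgm (∑ z ∈ A.erase y, w y z) (mass w (A.erase y))
      (sum_nonneg fun _ _ => h0 _ _) (mass_nonneg h0 _) k
    rw [← mass_erase hs hd hy] at h2
    push_cast
    exact (ih _ _).trans h2

/-- product of the weights of the consecutive pairs -/
noncomputable def W (w : V → V → ℝ) {k : ℕ} (h : Fin (k + 1) → V) : ℝ :=
  ∏ i : Fin k, w (h i.castSucc) (h i.succ)

theorem W_cons (w : V → V → ℝ) {k : ℕ} (u : V) (h : Fin (k + 1) → V) :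
    W w (Fin.cons u h : Fin (k + 2) → V) = w u (h 0) * W w h := by
  unfold W
  rw [Fin.prod_univ_succ]
  rfl

open Classical in
theorem S_eq (w : V → V → ℝ) (k : ℕ) : ∀ (A : Finset V) (u : V),
    S w k A u = ∑ h : Fin k → V, if Function.Injective h ∧ ∀ i, h i ∈ A then
      W w (Fin.cons u h : Fin (k + 1) → V) else 0 := by
  induction k with
  | zero =>
    intro A u
    rw [Fintype.sum_unique, if_pos ⟨Function.injective_of_subsingleton _, fun i => i.elim0⟩]
    simp [S, W]
  | succ k ih =>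
    intro A u
    have h1 : S w (k + 1) A u = ∑ y ∈ A, w u y * S w k (A.erase y) y := rfl
    rw [h1, ← (Fin.consEquiv fun _ : Fin (k + 1) => V).sum_comp, Fintype.sum_prod_type]
    have h2 : ∀ y : V, (∑ h : Fin k → V,
        if Function.Injective (Fin.cons y h : Fin (k + 1) → V) ∧
          ∀ i, (Fin.cons y h : Fin (k + 1) → V) i ∈ A then
        W w (Fin.cons u (Fin.cons y h : Fin (k + 1) → V) : Fin (k + 2) → V) else 0) =
        if y ∈ A then w u y * S w k (A.erase y) y else 0 := by
      intro y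
      by_cases hy : y ∈ A
      · rw [if_pos hy, ih, mul_sum]
        refine sum_congr rfl fun h _ => ?_
        have hiff : (Function.Injective (Fin.cons y h : Fin (k + 1) → V) ∧
            ∀ i, (Fin.cons y h : Fin (k + 1) → V) i ∈ A) ↔
            (Function.Injective h ∧ ∀ i, h i ∈ A.erase y) := by
          rw [Fin.cons_injective_iff, Fin.forall_fin_succ]
          simp only [Fin.cons_zero, Fin.cons_succ, mem_erase, Set.mem_range, not_exists]
          constructor
          · rintro ⟨⟨h1, h2⟩, -, h3⟩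
            exact ⟨h2, fun i => ⟨h1 i, h3 i⟩⟩
          · rintro ⟨h1, h2⟩
            exact ⟨⟨fun i => (h2 i).1, h1⟩, hy, fun i => (h2 i).2⟩
        rw [if_congr hiff rfl rfl, W_cons]
        split_ifs
        · rfl
        · rw [mul_zero]
      · rw [if_neg hy]
        refine sum_eq_zero fun h _ => if_neg ?_
        rintro ⟨-, h3⟩
        exact hy (h3 0)
    calc ∑ y ∈ A, w u y * S w k (A.erase y) y
        = ∑ y : V, if y ∈ A then w u y * S w k (A.erase y) y else 0 := by
          rw [sum_ite_mem, univ_inter]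
      _ = _ := sum_congr rfl fun y _ => (h2 y).symm

/-- the weighted degree -/
noncomputable def deg (w : V → V → ℝ) (x : V) : ℝ := ∑ k, w x k

theorem W_rev (hs : ∀ i j, w i j = w j i) {k : ℕ} (h : Fin (k + 1) → V) :
    W w (h ∘ Fin.rev) = W w h := by
  unfold W
  rw [← Equiv.prod_comp Fin.revPerm]
  refine prod_congr rfl fun i _ => ?_
  rw [hs]
  simp only [Function.comp, Fin.revPerm_apply, Fin.rev_castSucc, Fin.rev_succ, Fin.rev_rev]

open Classical in
/-- the functional, first with squares of the degree of the first vertex -/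
theorem sum_sq (w : V → V → ℝ) (k : ℕ) :
    ∑ h ∈ (univ : Finset (Fin (k + 1) → V)).filter (fun h => Function.Injective h),
      deg w (h 0) ^ 2 * W w h = ∑ u, deg w u ^ 2 * S w k (univ.erase u) u := by
  rw [sum_filter, ← (Fin.consEquiv fun _ : Fin (k + 1) => V).sum_comp, Fintype.sum_prod_type]
  refine sum_congr rfl fun u _ => ?_
  rw [S_eq, mul_sum]
  refine sum_congr rfl fun h _ => ?_
  have hiff : Function.Injective (Fin.cons u h : Fin (k + 1) → V) ↔
      (Function.Injective h ∧ ∀ i, h i ∈ (univ.erase u : Finset V)) := by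
    rw [Fin.cons_injective_iff]
    simp only [mem_erase, mem_univ, and_true, Set.mem_range, not_exists]
    exact and_comm
  show (if Function.Injective (Fin.cons u h : Fin (k + 1) → V) then
    deg w u ^ 2 * W w (Fin.cons u h : Fin (k + 1) → V) else 0) = _
  rw [if_congr hiff rfl rfl]
  split_ifs
  · rfl
  · rw [mul_zero]

open Classical in
theorem sum_rev (hs : ∀ i j, w i j = w j i) (k : ℕ) :
    ∑ h ∈ (univ : Finset (Fin (k + 1) → V)).filter (fun h => Function.Injective h),
      deg w (h (Fin.last k)) ^ 2 * W w h =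
    ∑ h ∈ (univ : Finset (Fin (k + 1) → V)).filter (fun h => Function.Injective h),
      deg w (h 0) ^ 2 * W w h := by
  refine sum_bij' (fun h _ => h ∘ Fin.rev) (fun h _ => h ∘ Fin.rev) ?_ ?_ ?_ ?_ ?_
  · intro h hh
    rw [mem_filter] at hh ⊢
    exact ⟨mem_univ _, hh.2.comp Fin.rev_injective⟩
  · intro h hh
    rw [mem_filter] at hh ⊢
    exact ⟨mem_univ _, hh.2.comp Fin.rev_injective⟩
  · intro h _
    funext i
    simp
  · intro h _
    funext i
    simp
  · intro h _
    rw [W_rev hs]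
    simp [Fin.rev_zero]

theorem W_nonneg (h0 : ∀ i j, 0 ≤ w i j) {k : ℕ} (h : Fin (k + 1) → V) : 0 ≤ W w h :=
  prod_nonneg fun _ _ => h0 _ _

theorem deg_le (h0 : ∀ i j, 0 ≤ w i j) (hs : ∀ i j, w i j = w j i) (hd : ∀ i, w i i = 0)
    (hw : ∑ i, ∑ j, w i j = 2) (u : V) : mass w (univ.erase u) = 1 - deg w u := by
  have h1 := mass_erase hs hd (mem_univ u)
  have h2 : mass w univ = 1 := by
    unfold mass
    rw [hw]
    norm_num
  have h3 : deg w u = ∑ z ∈ univ.erase u, w u z := by
    unfold deg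
    rw [← add_sum_erase univ (fun z => w u z) (mem_univ u), hd, zero_add]
  rw [h2, ← h3] at h1
  linarith

open Classical in
/-- **The odd-path functional.** -/
theorem main (h0 : ∀ i j, 0 ≤ w i j) (hs : ∀ i j, w i j = w j i) (hd : ∀ i, w i i = 0)
    (hw : ∑ i, ∑ j, w i j = 2) (k : ℕ) :
    ∑ h ∈ (univ : Finset (Fin (k + 2) → V)).filter (fun h => Function.Injective h),
      deg w (h 0) * W w h * deg w (h (Fin.last (k + 1))) ≤ 8 / ((k : ℝ) + 2) ^ (k + 2) := by
  have hdeg : ∀ u, 0 ≤ deg w u := fun u => sum_nonneg fun _ _ => h0 _ _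
  have hone : ∀ u, deg w u ≤ 1 := fun u => by
    have h1 := mass_nonneg h0 (univ.erase u)
    rw [deg_le h0 hs hd hw u] at h1
    linarith
  have h1 : ∑ h ∈ (univ : Finset (Fin (k + 2) → V)).filter (fun h => Function.Injective h),
      deg w (h 0) * W w h * deg w (h (Fin.last (k + 1))) ≤
      ∑ h ∈ (univ : Finset (Fin (k + 2) → V)).filter (fun h => Function.Injective h),
        (deg w (h 0) ^ 2 * W w h + deg w (h (Fin.last (k + 1))) ^ 2 * W w h) / 2 := by
    refine sum_le_sum fun h _ => ?_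
    have h2 := mul_nonneg (W_nonneg h0 h)
      (sq_nonneg (deg w (h 0) - deg w (h (Fin.last (k + 1)))))
    nlinarith [h2]
  have h3 : ∑ h ∈ (univ : Finset (Fin (k + 2) → V)).filter (fun h => Function.Injective h),
        (deg w (h 0) ^ 2 * W w h + deg w (h (Fin.last (k + 1))) ^ 2 * W w h) / 2 =
      ∑ u, deg w u ^ 2 * S w (k + 1) (univ.erase u) u := by
    rw [← sum_div, sum_add_distrib, sum_rev hs, sum_sq]
    ring
  rw [h3] at h1
  refine h1.trans ?_
  have h4 : ∀ u, deg w u ^ 2 * S w (k + 1) (univ.erase u) u ≤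
      deg w u * (4 / ((k : ℝ) + 2) ^ (k + 2)) := by
    intro u
    have h5 := S_le h0 hs hd k (univ.erase u) u
    rw [deg_le h0 hs hd hw u] at h5
    have h6 : ∑ y ∈ univ.erase u, w u y = deg w u := by
      unfold deg
      rw [← add_sum_erase univ (fun z => w u z) (mem_univ u), hd, zero_add]
    rw [h6] at h5
    have h7 := mul_le_mul_of_nonneg_left h5 (sq_nonneg (deg w u))
    have h8 := mul_le_mul_of_nonneg_left (amgm2 (deg w u) (hdeg u) (hone u) k) (hdeg u)
    refine h7.trans (le_trans (le_of_eq ?_) h8)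
    ring
  refine (sum_le_sum fun u _ => h4 u).trans (le_of_eq ?_)
  rw [← sum_mul]
  have h9 : ∑ u, deg w u = 2 := hw
  rw [h9]
  ring

end

end Pool.Agent.BPM
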